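import Pool.Agent.Y277.UB.Basic

/-!
* A complemented copy of `ℓ¹` in `E` gives a copy of `c₀` in the dual space.
* A space with a shrinking unconditional basis contains no isomorphic copy of `ℓ¹`.
-/

set_option autoImplicit false
set_option maxSynthPendingDepth 3

namespace Pool.Agent.Y277.UB

open ContinuousLinearMap Filter Topology Pool.Agent.Helper53 Pool.Agent.Y277.KE

universe u

lemma summable_pair (x : ZeroAtInftyContinuousMap ℕ ℂ) (a : lp (fun _ : ℕ => ℂ) 1) :
    Summable (fun n => ‖x n * a n‖) := by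
  refine Summable.of_nonneg_of_le (fun _ => norm_nonneg _) (fun n => ?_)
    ((Ell1.summable_norm a).mul_left ‖x‖)
  rw [norm_mul]
  gcongr
  exact normC_apply_le x n

/-- the duality of `c₀` and `ℓ¹` -/
noncomputable def pair : ZeroAtInftyContinuousMap ℕ ℂ →L[ℂ] lp (fun _ : ℕ => ℂ) 1 →L[ℂ] ℂ :=
  LinearMap.mkContinuous₂
    (LinearMap.mk₂ ℂ (fun (x : ZeroAtInftyContinuousMap ℕ ℂ) (a : lp (fun _ : ℕ => ℂ) 1) =>
        ∑' n, x n * a n)
      (fun x x' a => by
        rw [← (summable_pair x a).of_norm.tsum_add (summable_pair x' a).of_norm]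
        exact tsum_congr fun n => by rw [ZeroAtInftyContinuousMap.add_apply, add_mul])
      (fun c x a => by
        rw [← (summable_pair x a).of_norm.tsum_const_smul]
        exact tsum_congr fun n => by
          rw [ZeroAtInftyContinuousMap.smul_apply, smul_eq_mul, smul_eq_mul, mul_assoc])
      (fun x a a' => by
        rw [← (summable_pair x a).of_norm.tsum_add (summable_pair x a').of_norm]
        exact tsum_congr fun n => by rw [lp.coeFn_add, Pi.add_apply, mul_add])
      (fun c x a => by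
        rw [← (summable_pair x a).of_norm.tsum_const_smul]
        exact tsum_congr fun n => by
          rw [lp.coeFn_smul, Pi.smul_apply, smul_eq_mul, smul_eq_mul]; ring))
    1 (fun x a => by
      show ‖∑' n, x n * a n‖ ≤ 1 * ‖x‖ * ‖a‖
      refine (norm_tsum_le_tsum_norm (summable_pair x a)).trans ?_
      rw [one_mul, Ell1.norm_eq a, ← tsum_mul_left]
      refine (summable_pair x a).tsum_le_tsum (fun n => ?_)
        ((Ell1.summable_norm a).mul_left ‖x‖)
      rw [norm_mul]
      gcongr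
      exact normC_apply_le x n)

lemma pair_e (x : ZeroAtInftyContinuousMap ℕ ℂ) (n : ℕ) : pair x (Ell1.e n) = x n := by
  show ∑' k, x k * (Ell1.e n) k = x n
  rw [tsum_eq_single n]
  · simp
  · intro k hk
    rw [Ell1.e_ne hk, mul_zero]

section

variable {E : Type u} [NormedAddCommGroup E] [NormedSpace ℂ E]

theorem dual_of_complemented (h : ComplementedEll1 E) : DualContainsC0 E := by
  obtain ⟨J, Q, hQJ⟩ := h
  let T : ZeroAtInftyContinuousMap ℕ ℂ →L[ℂ] StrongDual ℂ E :=
    ((ContinuousLinearMap.compL ℂ E (lp (fun _ : ℕ => ℂ) 1) ℂ).flip Q).comp pair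
  refine ⟨T, 1 / (‖J‖ + 1), by positivity, fun x => ?_⟩
  rw [one_div, inv_mul_le_iff₀ (by positivity)]
  rw [normC_le_iff _ (by positivity)]
  intro n
  have h1 : T x (J (Ell1.e n)) = x n := by
    show pair x (Q (J (Ell1.e n))) = x n
    rw [hQJ, pair_e]
  rw [← h1]
  refine ((T x).le_opNorm _).trans ?_
  rw [mul_comm]
  gcongr
  refine (J.le_opNorm _).trans ?_
  rw [Ell1.norm_e, mul_one]
  linarith

/-- extension of functionals from a copy of `ℓ¹` -/
lemma exists_extension (T : lp (fun _ : ℕ => ℂ) 1 →L[ℂ] E) (c : ℝ) (hc : 0 < c)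
    (hT : ∀ x, c * ‖x‖ ≤ ‖T x‖) (h : lp (fun _ : ℕ => ℂ) 1 →L[ℂ] ℂ) :
    ∃ g : StrongDual ℂ E, ∀ x, g (T x) = h x := by
  have hinj : Function.Injective T := by
    intro x y hxy
    have := hT (x - y)
    rw [map_sub, hxy, sub_self, norm_zero] at this
    have h2 : ‖x - y‖ ≤ 0 := by
      by_contra h3
      push Not at h3
      have := mul_pos hc h3
      linarith
    exact sub_eq_zero.1 (norm_le_zero_iff.1 h2)
  let Teq := LinearEquiv.ofInjective (T : lp (fun _ : ℕ => ℂ) 1 →ₗ[ℂ] E) hinj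
  let f : LinearMap.range (T : lp (fun _ : ℕ => ℂ) 1 →ₗ[ℂ] E) →L[ℂ] ℂ :=
    LinearMap.mkContinuous ((h : lp (fun _ : ℕ => ℂ) 1 →ₗ[ℂ] ℂ).comp Teq.symm.toLinearMap)
      (‖h‖ / c) (fun y => by
        obtain ⟨x, rfl⟩ := Teq.surjective y
        show ‖h (Teq.symm (Teq x))‖ ≤ ‖h‖ / c * ‖Teq x‖
        rw [LinearEquiv.symm_apply_apply]
        refine (h.le_opNorm x).trans ?_
        have h1 : ‖Teq x‖ = ‖T x‖ := rfl
        rw [h1, div_mul_eq_mul_div, le_div_iff₀ hc, mul_assoc]
        gcongr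
        rw [mul_comm]
        exact hT x)
  obtain ⟨g, hg, -⟩ := exists_extension_norm_eq _ f
  refine ⟨g, fun x => ?_⟩
  have h1 := hg (Teq x)
  have h2 : f (Teq x) = h x := by
    show h (Teq.symm (Teq x)) = h x
    rw [LinearEquiv.symm_apply_apply]
  rw [h2] at h1
  exact h1

variable {ι : Type u}

theorem not_contains [CompleteSpace E] (e : ι → E) (f : ι → StrongDual ℂ E)
    (h : ∀ x, HasSum (fun i => f i x • e i) x) (he : ∀ i, e i ≠ 0)
    (hs : ∀ g : StrongDual ℂ E, Tendsto (fun F => g.comp (PF e f F)) atTop (𝓝 g)) :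
    ¬ ContainsCopy E (lp (fun _ : ℕ => ℂ) 1) := by
  classical
  rintro ⟨T, c, hc, hT⟩
  set x : ℕ → E := fun n => T (Ell1.e n) with hx
  have hxn : ∀ n, ‖x n‖ ≤ ‖T‖ := by
    intro n
    refine (T.le_opNorm _).trans ?_
    rw [Ell1.norm_e, mul_one]
  set C : Set ι := ⋃ n, Function.support (fun i => f i (x n) • e i) with hC
  have hCc : C.Countable := Set.countable_iUnion (fun n => (h (x n)).summable.countable_support)
  have hCn : ∀ i, i ∉ C → ∀ n, f i (x n) = 0 := by
    intro i hi n
    by_contra h0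
    exact hi (Set.mem_iUnion.2 ⟨n, smul_ne_zero h0 (he i)⟩)
  have : Countable C := hCc.to_subtype
  have hcomp : IsCompact (Set.pi Set.univ
      (fun i : C => Metric.closedBall (0 : ℂ) (‖f i‖ * ‖T‖))) :=
    isCompact_univ_pi (fun i => isCompact_closedBall _ _)
  obtain ⟨ξ, -, φ, hφ, hlim⟩ := hcomp.tendsto_subseq (x := fun n => fun i : C => f i (x n))
    (fun n => by
      intro i _
      rw [mem_closedBall_zero_iff]
      refine ((f i).le_opNorm _).trans ?_
      gcongr
      exact hxn n)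
  have hlim' : ∀ i : C, Tendsto (fun n => f i (x (φ n))) atTop (𝓝 (ξ i)) := fun i =>
    (tendsto_pi_nhds.1 hlim) i
  set y : ℕ → E := fun n => x (φ (2 * n)) - x (φ (2 * n + 1)) with hy
  have hyn : ∀ n, ‖y n‖ ≤ 2 * ‖T‖ := by
    intro n
    refine (norm_sub_le _ _).trans ?_
    have := hxn (φ (2 * n))
    have := hxn (φ (2 * n + 1))
    linarith
  have hy0 : ∀ i, Tendsto (fun n => f i (y n)) atTop (𝓝 0) := by
    intro i
    by_cases hi : i ∈ C
    · have h1 : Tendsto (fun n : ℕ => 2 * n) atTop atTop :=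
        tendsto_atTop_mono (fun n => by show n ≤ 2 * n; omega) tendsto_id
      have h2 : Tendsto (fun n : ℕ => 2 * n + 1) atTop atTop :=
        tendsto_atTop_mono (fun n => by show n ≤ 2 * n + 1; omega) tendsto_id
      have h3 := ((hlim' ⟨i, hi⟩).comp h1).sub ((hlim' ⟨i, hi⟩).comp h2)
      rw [sub_self] at h3
      refine h3.congr (fun n => ?_)
      simp only [hy, map_sub, Function.comp]
    · have h1 : ∀ n, f i (y n) = 0 := by
        intro n
        simp only [hy, map_sub, hCn i hi, sub_self]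
      simp only [h1]
      exact tendsto_const_nhds
  -- the functional
  obtain ⟨s, hs1⟩ := exists_op_of_bounded
    (Function.extend φ (fun m => ((-1 : ℂ)) ^ m) 0) 1 (fun k => by
      by_cases hk : ∃ m, φ m = k
      · obtain ⟨m, rfl⟩ := hk
        rw [hφ.injective.extend_apply]
        simp
      · rw [Function.extend_apply' _ _ _ hk]
        simp)
  obtain ⟨g, hg⟩ := exists_extension T c hc hT s
  have hgy : ∀ n, g (y n) = 2 := by
    intro n
    simp only [hy, hx, map_sub, hg, hs1, hφ.injective.extend_apply]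
    rw [pow_succ, pow_mul]
    norm_num
  have h5 := hs g
  rw [Metric.tendsto_atTop] at h5
  obtain ⟨F, hF⟩ := h5 (1 / (2 * ‖T‖ + 1)) (by positivity)
  have h6 := hF F le_rfl
  rw [dist_eq_norm] at h6
  have h7 : Tendsto (fun n => g (PF e f F (y n))) atTop (𝓝 0) := by
    have h8 : Tendsto (fun n => ∑ i ∈ F, f i (y n) * g (e i)) atTop
        (𝓝 (∑ i ∈ F, (0 : ℂ) * g (e i))) :=
      tendsto_finset_sum _ (fun i _ => (hy0 i).mul_const _)
    simp only [zero_mul, Finset.sum_const_zero] at h8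
    refine h8.congr (fun n => ?_)
    rw [PF_apply, map_sum]
    exact Finset.sum_congr rfl (fun i _ => by rw [map_smul, smul_eq_mul])
  have h9 : ∀ᶠ n in atTop, ‖g (PF e f F (y n))‖ < 1 := by
    have := h7.norm
    rw [norm_zero] at this
    exact this.eventually (gt_mem_nhds one_pos)
  obtain ⟨n, hn⟩ := h9.exists
  have h10 : ‖g (PF e f F (y n)) - g (y n)‖ ≤ 1 := by
    have e1 : g (PF e f F (y n)) - g (y n) = (g.comp (PF e f F) - g) (y n) := rfl
    rw [e1]
    refine (le_opNorm _ _).trans ?_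
    have e2 := hyn n
    calc ‖g.comp (PF e f F) - g‖ * ‖y n‖ ≤ (1 / (2 * ‖T‖ + 1)) * (2 * ‖T‖ + 1) := by
          gcongr
          linarith
      _ = 1 := by
          have : (0 : ℝ) < 2 * ‖T‖ + 1 := by positivity
          field_simp
  rw [hgy] at h10
  have h11 := norm_sub_norm_le (2 : ℂ) (g (PF e f F (y n)))
  rw [norm_sub_rev, Complex.norm_ofNat] at h11
  linarith

end

end Pool.Agent.Y277.UB
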