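import Pool.Agent.Y277.UB.Basic

/-!
If `E` has a shrinking unconditional basis, then `K(E)` is projective as a Banach left module over
itself.
-/

set_option autoImplicit false
set_option maxSynthPendingDepth 3

namespace Pool.Agent.Y277.UB

open ContinuousLinearMap Filter Topology Pool.Agent.Helper53 Pool.Agent.Y277.KE

universe u

/-- averaging over signs -/
lemma avg_bound {A Y : Type*} [NormedAddCommGroup A] [NormedSpace ℂ A] [NormedAddCommGroup Y]
    [NormedSpace ℂ Y] (B : A →L[ℂ] A →L[ℂ] Y) {ι : Type*} [DecidableEq ι] (x y : ι → A) (C D : ℝ)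
    (hC : 0 ≤ C) (F : Finset ι) : ∀ (u v : A),
    (∀ ε : ι → ℂ, (∀ i, ε i = 1 ∨ ε i = -1) → ‖u + ∑ i ∈ F, ε i • x i‖ ≤ C) →
    (∀ ε : ι → ℂ, (∀ i, ε i = 1 ∨ ε i = -1) → ‖v + ∑ i ∈ F, ε i • y i‖ ≤ D) →
    ‖B u v + ∑ i ∈ F, B (x i) (y i)‖ ≤ ‖B‖ * C * D := by
  induction F using Finset.induction_on with
  | empty =>
    intro u v hu hv
    have h1 := hu (fun _ => 1) (fun _ => Or.inl rfl)
    have h2 := hv (fun _ => 1) (fun _ => Or.inl rfl)
    simp only [Finset.sum_empty, add_zero] at h1 h2 ⊢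
    refine (B.le_opNorm₂ u v).trans ?_
    gcongr
  | insert j F hj ih =>
    intro u v hu hv
    have key : ∀ (w : A) (z : ι → A) (R : ℝ) (c : ℂ), (c = 1 ∨ c = -1) →
        (∀ ε : ι → ℂ, (∀ i, ε i = 1 ∨ ε i = -1) → ‖w + ∑ i ∈ insert j F, ε i • z i‖ ≤ R) →
        ∀ ε : ι → ℂ, (∀ i, ε i = 1 ∨ ε i = -1) → ‖(w + c • z j) + ∑ i ∈ F, ε i • z i‖ ≤ R := by
      intro w z R c hc hw ε hε
      have h1 := hw (Function.update ε j c) (fun i => by
        by_cases hi : i = j
        · subst hi
          simpa using hc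
        · simpa [Function.update_of_ne hi] using hε i)
      rw [Finset.sum_insert hj, Function.update_self, ← add_assoc] at h1
      have h2 : ∑ i ∈ F, Function.update ε j c i • z i = ∑ i ∈ F, ε i • z i :=
        Finset.sum_congr rfl (fun i hi => by
          have hne : i ≠ j := by
            rintro rfl
            exact hj hi
          rw [Function.update_of_ne hne])
      rwa [h2] at h1
    have a1 := ih (u + (1 : ℂ) • x j) (v + (1 : ℂ) • y j) (key u x C 1 (Or.inl rfl) hu)
      (key v y D 1 (Or.inl rfl) hv)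
    have a2 := ih (u + (-1 : ℂ) • x j) (v + (-1 : ℂ) • y j) (key u x C (-1) (Or.inr rfl) hu)
      (key v y D (-1) (Or.inr rfl) hv)
    rw [Finset.sum_insert hj]
    set S := ∑ i ∈ F, B (x i) (y i) with hS
    have e1 : (2 : ℂ) • (B u v + (B (x j) (y j) + S)) =
        (B (u + (1 : ℂ) • x j) (v + (1 : ℂ) • y j) + S)
        + (B (u + (-1 : ℂ) • x j) (v + (-1 : ℂ) • y j) + S) := by
      simp only [map_add, add_apply, one_smul, neg_smul, two_smul, map_neg, neg_apply]
      abel
    have e2 := congrArg norm e1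
    rw [norm_smul, Complex.norm_ofNat] at e2
    have e3 := norm_add_le (B (u + (1 : ℂ) • x j) (v + (1 : ℂ) • y j) + S)
      (B (u + (-1 : ℂ) • x j) (v + (-1 : ℂ) • y j) + S)
    rw [← e2] at e3
    linarith

lemma sign_sum_le {A : Type*} [NormedAddCommGroup A] [NormedSpace ℂ A] {ι : Type*}
    [DecidableEq ι] (x : ι → A) (F₀ : Finset ι) (η : ℝ)
    (h : ∀ G : Finset ι, Disjoint G F₀ → ‖∑ i ∈ G, x i‖ < η) (F : Finset ι) (hF : Disjoint F F₀)
    (ε : ι → ℂ) (hε : ∀ i, ε i = 1 ∨ ε i = -1) : ‖∑ i ∈ F, ε i • x i‖ ≤ 2 * η := by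
  have h1 : ∑ i ∈ F, ε i • x i =
      ∑ i ∈ F.filter (fun i => ε i = 1), x i - ∑ i ∈ F.filter (fun i => ¬ ε i = 1), x i := by
    rw [← Finset.sum_filter_add_sum_filter_not F (fun i => ε i = 1), sub_eq_add_neg,
      ← Finset.sum_neg_distrib]
    congr 1
    · refine Finset.sum_congr rfl (fun i hi => ?_)
      rw [(Finset.mem_filter.1 hi).2, one_smul]
    · refine Finset.sum_congr rfl (fun i hi => ?_)
      rw [(hε i).resolve_left (Finset.mem_filter.1 hi).2, neg_smul, one_smul]
  rw [h1]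
  refine (norm_sub_le _ _).trans ?_
  have := h (F.filter (fun i => ε i = 1)) (hF.mono_left (Finset.filter_subset _ _))
  have := h (F.filter (fun i => ¬ ε i = 1)) (hF.mono_left (Finset.filter_subset _ _))
  linarith

section

variable {E : Type u} [NormedAddCommGroup E] [NormedSpace ℂ E] {ι : Type u}

lemma compact_approx (e : ι → E) (f : ι → StrongDual ℂ E)
    (h : ∀ x, HasSum (fun i => f i x • e i) x) (K : ℝ) (hK0 : 0 ≤ K)
    (hK : ∀ F, ‖PF e f F‖ ≤ K) (a : E →L[ℂ] E) (ha : IsCompactOperator a) (δ : ℝ) (hδ : 0 < δ) :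
    ∃ F, ‖a - (PF e f F).comp a‖ ≤ δ := by
  classical
  have hc := ha.isCompact_closure_image_closedBall (1 : ℝ)
  have hη : 0 < δ / (K + 2) := by positivity
  obtain ⟨t, -, htf, htc⟩ := hc.finite_cover_balls hη
  have hev : ∀ᶠ F : Finset ι in atTop, ∀ y ∈ t, ‖y - PF e f F y‖ < δ / (K + 2) := by
    rw [eventually_all_finite htf]
    intro y _
    have h5 : Tendsto (fun G : Finset ι => PF e f G y) atTop (𝓝 y) :=
      Tendsto.congr (fun G => (PF_apply e f G y).symm) (h y)
    have h6 : Tendsto (fun G : Finset ι => ‖y - PF e f G y‖) atTop (𝓝 ‖y - y‖) :=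
      (tendsto_const_nhds.sub h5).norm
    rw [sub_self, norm_zero] at h6
    exact h6.eventually (gt_mem_nhds hη)
  obtain ⟨F, hF⟩ := hev.exists
  refine ⟨F, opNorm_le_of_unit_norm hδ.le (fun x hx => ?_)⟩
  have hmem : a x ∈ closure (a '' Metric.closedBall 0 1) :=
    subset_closure ⟨x, by simp [hx], rfl⟩
  obtain ⟨y, hy, hxy⟩ := Set.mem_iUnion₂.1 (htc hmem)
  rw [mem_ball_iff_norm] at hxy
  have e1 : (a - (PF e f F).comp a) x
      = (a x - y) + (y - PF e f F y) - PF e f F (a x - y) := by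
    rw [sub_apply, comp_apply, map_sub]
    abel
  rw [e1]
  have e2 := norm_sub_le ((a x - y) + (y - PF e f F y)) (PF e f F (a x - y))
  have e3 := norm_add_le (a x - y) (y - PF e f F y)
  have e4 : ‖PF e f F (a x - y)‖ ≤ K * (δ / (K + 2)) := by
    refine (le_opNorm _ _).trans ?_
    gcongr
    exact hK _
  have e5 := hF y hy
  have e6 : K * (δ / (K + 2)) + δ / (K + 2) + δ / (K + 2) = δ := by
    field_simp
    ring
  linarith

lemma tendsto_comp_PF (e : ι → E) (f : ι → StrongDual ℂ E)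
    (h : ∀ x, HasSum (fun i => f i x • e i) x) (K : ℝ) (hK0 : 0 ≤ K)
    (hK : ∀ F, ‖PF e f F‖ ≤ K)
    (hs : ∀ g : StrongDual ℂ E, Tendsto (fun F => g.comp (PF e f F)) atTop (𝓝 g))
    (a : E →L[ℂ] E) (ha : IsCompactOperator a) :
    Tendsto (fun F : Finset ι => a.comp (PF e f F)) atTop (𝓝 a) := by
  classical
  rw [tendsto_iff_norm_sub_tendsto_zero]
  rw [Metric.tendsto_nhds]
  intro δ hδ
  have hη : 0 < δ / (K + 3) := by positivity
  obtain ⟨F₀, hF₀⟩ := compact_approx e f h K hK0 hK a ha _ hη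
  set b : E →L[ℂ] E := (PF e f F₀).comp a with hb
  have hb2 : ∀ F, b.comp (PF e f F)
      = ∑ i ∈ F₀, ((f i).comp a |>.comp (PF e f F)).smulRight (e i) := by
    intro F
    ext x
    simp only [hb, comp_apply, PF_apply e f F₀, sum_apply, smulRight_apply]
  have hb1 : b = ∑ i ∈ F₀, ((f i).comp a).smulRight (e i) := by
    ext x
    simp only [hb, comp_apply, PF_apply e f F₀, sum_apply, smulRight_apply]
  have ht : Tendsto (fun F => b.comp (PF e f F)) atTop (𝓝 b) := by
    have ht' : Tendsto (fun F : Finset ι =>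
        ∑ i ∈ F₀, (((f i).comp a).comp (PF e f F)).smulRight (e i)) atTop
        (𝓝 (∑ i ∈ F₀, ((f i).comp a).smulRight (e i))) := by
      refine tendsto_finset_sum _ (fun i _ => ?_)
      exact (((inclK E).comp (rkL E (e i))).continuous.tendsto ((f i).comp a)).comp
        (hs ((f i).comp a))
    rw [← hb1] at ht'
    exact ht'.congr (fun F => (hb2 F).symm)
  rw [tendsto_iff_norm_sub_tendsto_zero] at ht
  filter_upwards [ht.eventually (gt_mem_nhds hη)] with F hF
  rw [Real.dist_eq, sub_zero, abs_of_nonneg (norm_nonneg _)]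
  have e1 : a.comp (PF e f F) - a = (a - b).comp (PF e f F) + (b.comp (PF e f F) - b)
      - (a - b) := by
    rw [sub_comp]
    abel
  rw [e1]
  have e2 := norm_sub_le ((a - b).comp (PF e f F) + (b.comp (PF e f F) - b)) (a - b)
  have e3 := norm_add_le ((a - b).comp (PF e f F)) (b.comp (PF e f F) - b)
  have e4 : ‖(a - b).comp (PF e f F)‖ ≤ δ / (K + 3) * K := by
    refine (opNorm_comp_le _ _).trans ?_
    gcongr
    exact hK _
  have e6 : δ / (K + 3) * K + δ / (K + 3) + δ / (K + 3) < δ := by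
    have : δ / (K + 3) * K + δ / (K + 3) + δ / (K + 3) + δ / (K + 3) = δ := by
      field_simp
      ring
    linarith
  linarith

/-- If the unconditional basis is shrinking, `K(E)` is left projective. -/
theorem leftProjective [CompleteSpace E] (e : ι → E) (f : ι → StrongDual ℂ E)
    (h1 : ∀ i, f i (e i) = 1) (h : ∀ x, HasSum (fun i => f i x • e i) x)
    (hs : ∀ g : StrongDual ℂ E, Tendsto (fun F => g.comp (PF e f F)) atTop (𝓝 g)) :
    LeftProjective (leftRegular (compactOps E)) := by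
  classical
  obtain ⟨K, hK0, hK⟩ := exists_bound e f h
  intro Y _ _ _ mY φ hφ ⟨s, hs'⟩
  let q : ι → compactOps E := fun i => rk E (e i) (f i)
  let B : compactOps E →L[ℂ] compactOps E →L[ℂ] Y :=
    ((ContinuousLinearMap.compL ℂ (compactOps E) Y Y).flip s).comp mY.act
  have hB : ∀ x y, B x y = mY.act x (s y) := fun x y => rfl
  -- convergence of `a * q i`
  have hq : ∀ a : compactOps E, HasSum (fun i => a * q i) a := by
    intro a
    have h5 := tendsto_comp_PF e f h K hK0 hK hs (a : E →L[ℂ] E) a.2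
    rw [tendsto_iff_norm_sub_tendsto_zero] at h5
    show Tendsto (fun F => ∑ i ∈ F, a * q i) _ _
    rw [tendsto_iff_norm_sub_tendsto_zero]
    refine h5.congr (fun F => ?_)
    rw [← norm_coeK]
    congr 1
    rw [← Finset.mul_sum]
    show (a : E →L[ℂ] E).comp (PF e f F) - a = (a : E →L[ℂ] E) * ((∑ i ∈ F, q i : compactOps E) :
      E →L[ℂ] E) - a
    rw [AddSubmonoidClass.coe_finsetSum]
    rfl
  have hsgn : ∀ (ε : ι → ℂ), (∀ i, ε i = 1 ∨ ε i = -1) → ∀ F : Finset ι,
      ‖∑ i ∈ F, ε i • q i‖ ≤ 2 * K := by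
    intro ε hε F
    refine le_trans (le_of_eq ?_) (sign_bound e f K hK ε hε F)
    rw [← norm_coeK, AddSubmonoidClass.coe_finsetSum]
    rfl
  have hbd : ∀ (a : compactOps E) (F : Finset ι),
      ‖∑ i ∈ F, B (a * q i) (q i)‖ ≤ ‖B‖ * (‖a‖ * (2 * K)) * (2 * K) := by
    intro a F
    have := avg_bound B (fun i => a * q i) q (‖a‖ * (2 * K)) (2 * K) (by positivity) F 0 0
      (fun ε hε => by
        rw [zero_add]
        have e1 : ∑ i ∈ F, ε i • (a * q i) = a * ∑ i ∈ F, ε i • q i := by
          rw [Finset.mul_sum]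
          exact Finset.sum_congr rfl (fun i _ => (mul_smul_comm _ _ _).symm)
        rw [e1]
        refine (norm_mul_le _ _).trans ?_
        gcongr
        exact hsgn ε hε F)
      (fun ε hε => by
        rw [zero_add]
        exact hsgn ε hε F)
    simpa using this
  have hsum : ∀ a : compactOps E, Summable (fun i => B (a * q i) (q i)) := by
    intro a
    rw [summable_iff_vanishing_norm]
    intro r hr
    have hM : 0 ≤ ‖B‖ * (2 * (2 * K)) := by positivity
    obtain ⟨F₀, hF₀⟩ := (summable_iff_vanishing_norm.1 (hq a).summable)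
      (r / (‖B‖ * (2 * (2 * K)) + 1)) (by positivity)
    refine ⟨F₀, fun F hF => ?_⟩
    have := avg_bound B (fun i => a * q i) q (2 * (r / (‖B‖ * (2 * (2 * K)) + 1))) (2 * K)
      (by positivity) F 0 0
      (fun ε hε => by
        rw [zero_add]
        exact sign_sum_le _ F₀ _ hF₀ F hF ε hε)
      (fun ε hε => by
        rw [zero_add]
        exact hsgn ε hε F)
    rw [map_zero, zero_add] at this
    refine lt_of_le_of_lt this ?_
    have e1 : ‖B‖ * (2 * (r / (‖B‖ * (2 * (2 * K)) + 1))) * (2 * K)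
        = (‖B‖ * (2 * (2 * K))) * r / (‖B‖ * (2 * (2 * K)) + 1) := by ring
    rw [e1, div_lt_iff₀ (by positivity)]
    nlinarith
  let ψ : compactOps E →L[ℂ] Y := LinearMap.mkContinuous
    { toFun := fun a => ∑' i, B (a * q i) (q i)
      map_add' := fun a b => by
        rw [← (hsum a).tsum_add (hsum b)]
        exact tsum_congr fun i => by rw [add_mul, map_add, add_apply]
      map_smul' := fun c a => by
        rw [RingHom.id_apply, ← (hsum a).tsum_const_smul]
        exact tsum_congr fun i => by rw [smul_mul_assoc, map_smul, smul_apply] }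
    (‖B‖ * (2 * K) * (2 * K)) (fun a => by
      have h5 := (hsum a).hasSum.norm
      refine le_of_tendsto h5 (Eventually.of_forall fun F => ?_)
      refine (hbd a F).trans (le_of_eq ?_)
      ring)
  refine ⟨ψ, fun b a => ?_, fun a => ?_⟩
  · show ∑' i, B ((b * a) * q i) (q i) = mY.act b (∑' i, B (a * q i) (q i))
    rw [(mY.act b).map_tsum (hsum a)]
    refine tsum_congr (fun i => ?_)
    rw [hB, hB, mul_assoc, mY.act_mul]
  · show φ (∑' i, B (a * q i) (q i)) = a
    rw [φ.map_tsum (hsum a)]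
    refine Eq.trans (tsum_congr (fun i => ?_)) (hq a).tsum_eq
    rw [hB, hφ, hs']
    show (a * q i) * q i = a * q i
    rw [mul_assoc]
    congr 1
    show rk E (e i) (f i) * rk E (e i) (f i) = rk E (e i) (f i)
    rw [rk_mul_rk, h1, one_smul]

end

end Pool.Agent.Y277.UB
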