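import Pool.Agent.Y277.UB.Neg
import Pool.Agent.Y277.UB.Pos
import Pool.Agent.Y277.UB.Copy

/-!
Left projectivity of `K(E)` for spaces with an unconditional basis.
-/

set_option autoImplicit false
set_option maxSynthPendingDepth 3

namespace Pool.Agent.Y277.UB

open ContinuousLinearMap Filter Topology Pool.Agent.Helper53 Pool.Agent.Y277.KE

universe u

/-- `E` has an unconditional basis, countable or uncountable: there are vectors `e i` and bounded
functionals `f i` with `f i (e j) = δ i j`, such that for every `x` the sum of the `f i x • e i`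
converges unconditionally to `x`. -/
def HasUnconditionalBasis (E : Type u) [NormedAddCommGroup E] [NormedSpace ℂ E] : Prop :=
  ∃ (ι : Type u) (e : ι → E) (f : ι → StrongDual ℂ E), (∀ i, f i (e i) = 1) ∧
    (∀ i j, i ≠ j → f i (e j) = 0) ∧ ∀ x, HasSum (fun i => f i x • e i) x

section

variable {E : Type u} [NormedAddCommGroup E] [NormedSpace ℂ E] [CompleteSpace E]

theorem iff_complemented (h : HasUnconditionalBasis E) :
    LeftProjective (leftRegular (compactOps E)) ↔ ¬ ComplementedEll1 E := by
  obtain ⟨ι, e, f, h1, h2, h3⟩ := h
  constructor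
  · intro hp hc
    exact not_leftProjective (seqAP e f h3) hc hp
  · intro hc
    refine leftProjective e f h1 h3 (fun g => ?_)
    by_contra hg
    exact hc (complementedEll1 e f h1 h2 h3 g hg)

theorem iff_contains (h : HasUnconditionalBasis E) :
    LeftProjective (leftRegular (compactOps E)) ↔ ¬ ContainsCopy E (lp (fun _ : ℕ => ℂ) 1) := by
  rw [iff_complemented h]
  obtain ⟨ι, e, f, h1, h2, h3⟩ := h
  constructor
  · intro hc
    refine not_contains e f h3 (fun i hi => ?_) (fun g => ?_)
    · have := h1 i
      rw [hi, map_zero] at this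
      exact zero_ne_one this
    · by_contra hg
      exact hc (complementedEll1 e f h1 h2 h3 g hg)
  · rintro hc ⟨J, Q, hQJ⟩
    refine hc ⟨J, 1 / (‖Q‖ + 1), by positivity, fun x => ?_⟩
    rw [one_div, inv_mul_le_iff₀ (by positivity)]
    conv_lhs => rw [← hQJ x]
    refine (Q.le_opNorm _).trans ?_
    gcongr
    linarith

theorem iff_dual (h : HasUnconditionalBasis E) :
    LeftProjective (leftRegular (compactOps E)) ↔ ¬ DualContainsC0 E := by
  rw [iff_complemented h]
  exact not_congr ⟨dual_of_complemented, complementedEll1_of_dual⟩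

end

end Pool.Agent.Y277.UB
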