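import Pool.Agent.Y277.UB.Basic

/-!
A space with an unconditional basis which is not shrinking contains a complemented copy of `ℓ¹`.
-/

set_option autoImplicit false
set_option maxSynthPendingDepth 3

namespace Pool.Agent.Y277.UB

open ContinuousLinearMap Filter Topology Pool.Agent.Helper53 Pool.Agent.Y277.KE

universe u

lemma sum_abs_le (F : Finset ℕ) (r : ℕ → ℝ) (M : ℝ) (h : ∀ S : Finset ℕ, |∑ n ∈ S, r n| ≤ M) :
    ∑ n ∈ F, |r n| ≤ 2 * M := by
  rw [← Finset.sum_filter_add_sum_filter_not F (fun n => 0 ≤ r n)]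
  have h1 : ∑ n ∈ F.filter (fun n => 0 ≤ r n), |r n| = ∑ n ∈ F.filter (fun n => 0 ≤ r n), r n :=
    Finset.sum_congr rfl (fun n hn => abs_of_nonneg (Finset.mem_filter.1 hn).2)
  have h2 : ∑ n ∈ F.filter (fun n => ¬ 0 ≤ r n), |r n|
      = - ∑ n ∈ F.filter (fun n => ¬ 0 ≤ r n), r n := by
    rw [← Finset.sum_neg_distrib]
    exact Finset.sum_congr rfl (fun n hn => abs_of_neg (not_le.1 (Finset.mem_filter.1 hn).2))
  rw [h1, h2]
  have h3 := (abs_le.1 (h (F.filter (fun n => 0 ≤ r n)))).2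
  have h4 := (abs_le.1 (h (F.filter (fun n => ¬ 0 ≤ r n)))).1
  linarith

lemma sum_norm_le (F : Finset ℕ) (z : ℕ → ℂ) (M : ℝ) (h : ∀ S : Finset ℕ, ‖∑ n ∈ S, z n‖ ≤ M) :
    ∑ n ∈ F, ‖z n‖ ≤ 4 * M := by
  have h1 : ∑ n ∈ F, ‖z n‖ ≤ ∑ n ∈ F, |(z n).re| + ∑ n ∈ F, |(z n).im| := by
    rw [← Finset.sum_add_distrib]
    exact Finset.sum_le_sum (fun n _ => Complex.norm_le_abs_re_add_abs_im _)
  have h2 : ∑ n ∈ F, |(z n).re| ≤ 2 * M := sum_abs_le F _ M (fun S => by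
    rw [← Complex.re_sum]
    exact (Complex.abs_re_le_norm _).trans (h S))
  have h3 : ∑ n ∈ F, |(z n).im| ≤ 2 * M := sum_abs_le F _ M (fun S => by
    rw [← Complex.im_sum]
    exact (Complex.abs_im_le_norm _).trans (h S))
  linarith

section

variable {E : Type u} [NormedAddCommGroup E] [NormedSpace ℂ E] {ι : Type u}

lemma exists_block [DecidableEq ι] (e : ι → E) (f : ι → StrongDual ℂ E) (h1 : ∀ i, f i (e i) = 1)
    (h2 : ∀ i j, i ≠ j → f i (e j) = 0) (h : ∀ x, HasSum (fun i => f i x • e i) x)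
    (K : ℝ) (hK0 : 0 ≤ K) (hK : ∀ F, ‖PF e f F‖ ≤ K) (g : StrongDual ℂ E) (δ : ℝ)
    (hg : ∀ F₀ : Finset ι, ∃ F ≥ F₀, δ ≤ dist (g.comp (PF e f F)) g) (hδ : 0 < δ)
    (F₀ : Finset ι) : ∃ p : Finset ι × E, Disjoint p.1 F₀ ∧ PF e f p.1 p.2 = p.2 ∧ ‖p.2‖ ≤ K ∧
      δ / 2 ≤ ‖g p.2‖ := by
  obtain ⟨F, hF, hd⟩ := hg F₀
  rw [dist_eq_norm] at hd
  obtain ⟨x, hx1, hx2⟩ := ContinuousLinearMap.exists_lt_apply_of_lt_opNorm
    (g.comp (PF e f F) - g) (show δ / 2 < ‖g.comp (PF e f F) - g‖ by linarith)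
  have ht : Tendsto (fun G : Finset ι => ‖g (PF e f F x) - g (PF e f G x)‖) atTop
      (𝓝 ‖g (PF e f F x) - g x‖) := by
    have h5 : Tendsto (fun G : Finset ι => PF e f G x) atTop (𝓝 x) := by
      have := h x
      refine Tendsto.congr (fun G => (PF_apply e f G x).symm) this
    exact ((tendsto_const_nhds).sub ((g.continuous.tendsto x).comp h5)).norm
  have hx2' : δ / 2 < ‖g (PF e f F x) - g x‖ := hx2
  obtain ⟨G, hG1, hG2⟩ := ((ht.eventually (lt_mem_nhds hx2')).and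
    (eventually_ge_atTop F)).exists
  have hFG : F ⊆ G := hG2
  refine ⟨(G \ F, PF e f (G \ F) x), ?_, ?_, ?_, ?_⟩
  · exact Finset.sdiff_disjoint.mono_right hF
  · exact PF_mul e f h1 h2 _ _ (Finset.Subset.refl _) x
  · refine ((PF e f (G \ F)).le_opNorm x).trans ?_
    calc ‖PF e f (G \ F)‖ * ‖x‖ ≤ K * 1 := by gcongr; exact hK _
      _ = K := mul_one K
  · have h6 : PF e f (G \ F) x = PF e f G x - PF e f F x := by
      rw [PF_apply, PF_apply, PF_apply, ← Finset.sum_sdiff hFG, add_sub_cancel_right]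
    show δ / 2 ≤ ‖g (PF e f (G \ F) x)‖
    rw [h6, map_sub, norm_sub_rev]
    exact hG1.le

theorem complementedEll1 [CompleteSpace E] (e : ι → E) (f : ι → StrongDual ℂ E)
    (h1 : ∀ i, f i (e i) = 1) (h2 : ∀ i j, i ≠ j → f i (e j) = 0)
    (h : ∀ x, HasSum (fun i => f i x • e i) x) (g : StrongDual ℂ E)
    (hg : ¬ Tendsto (fun F => g.comp (PF e f F)) atTop (𝓝 g)) : ComplementedEll1 E := by
  classical
  obtain ⟨K, hK0, hK⟩ := exists_bound e f h
  rw [Metric.tendsto_atTop] at hg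
  push Not at hg
  obtain ⟨δ, hδ, hg⟩ := hg
  obtain ⟨p, hp1, hp2⟩ := exists_seq_of_forall_finset_exists
    (fun p : Finset ι × E => PF e f p.1 p.2 = p.2 ∧ ‖p.2‖ ≤ K ∧ δ / 2 ≤ ‖g p.2‖)
    (fun p q => Disjoint q.1 p.1) (fun s _ => by
      obtain ⟨q, hq1, hq2⟩ := exists_block e f h1 h2 h K hK0 hK g δ hg hδ
        (s.biUnion (fun p => p.1))
      refine ⟨q, hq2, fun x hx => ?_⟩
      exact (Finset.disjoint_biUnion_right _ _ _).1 hq1 x hx)
  have hdis : ∀ m n, m ≠ n → Disjoint (p m).1 (p n).1 := by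
    intro m n hmn
    rcases lt_or_gt_of_ne hmn with h' | h'
    · exact (hp2 m n h').symm
    · exact hp2 n m h'
  have hgne : ∀ n, g (p n).2 ≠ 0 := by
    intro n h0
    have := (hp1 n).2.2
    rw [h0, norm_zero] at this
    linarith
  obtain ⟨J, hJ⟩ := exists_op_of_bounded (fun n => (g (p n).2)⁻¹ • (p n).2) ((2 / δ) * K)
    (fun n => by
      rw [norm_smul, norm_inv]
      have h5 : ‖g (p n).2‖⁻¹ ≤ 2 / δ := by
        rw [inv_le_comm₀ (by linarith [(hp1 n).2.2]) (by positivity), inv_div]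
        exact (hp1 n).2.2
      have := (hp1 n).2.1
      gcongr)
  have hsum : ∀ (y : E) (F : Finset ℕ), ∑ n ∈ F, ‖g (PF e f (p n).1 y)‖
      ≤ 4 * (‖g‖ * K) * ‖y‖ := by
    intro y F
    rw [mul_assoc]
    refine sum_norm_le F _ _ (fun S => ?_)
    have h5 : ∑ n ∈ S, g (PF e f (p n).1 y) = g (PF e f (S.biUnion (fun n => (p n).1)) y) := by
      rw [PF_apply, Finset.sum_biUnion, map_sum]
      · exact Finset.sum_congr rfl (fun n _ => by rw [PF_apply])
      · intro m _ n _ hmn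
        exact hdis m n hmn
    rw [h5]
    refine (g.le_opNorm _).trans ?_
    rw [mul_assoc]
    gcongr
    refine (le_opNorm _ _).trans ?_
    gcongr
    exact hK _
  have hsm : ∀ y : E, Summable fun n => ‖g (PF e f (p n).1 y)‖ := fun y =>
    summable_of_sum_le (fun _ => norm_nonneg _) (hsum y)
  let Q : E →L[ℂ] lp (fun _ : ℕ => ℂ) 1 := LinearMap.mkContinuous
    { toFun := fun y => Ell1.mk (fun n => g (PF e f (p n).1 y)) (hsm y)
      map_add' := fun x y => by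
        ext i
        simp
      map_smul' := fun c x => by
        ext i
        simp }
    (4 * (‖g‖ * K)) (fun y => Ell1.norm_le_of_sum_le _ _ (fun F => hsum y F))
  have hQ : ∀ (y : E) (n : ℕ), Q y n = g (PF e f (p n).1 y) := fun y n => rfl
  have hN : ‖ContinuousLinearMap.id ℂ (lp (fun _ : ℕ => ℂ) 1) - Q.comp J‖ ≤ 0 := by
    refine opNorm_le_of_unit _ _ le_rfl (fun k => ?_)
    have e1 : (ContinuousLinearMap.id ℂ (lp (fun _ : ℕ => ℂ) 1) - Q.comp J) (Ell1.e k) = 0 := by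
      rw [sub_apply, id_apply, comp_apply, hJ, sub_eq_zero]
      ext n
      rw [hQ, map_smul, map_smul, Ell1.e_apply]
      split_ifs with hnk
      · subst hnk
        rw [(hp1 n).1, smul_eq_mul, inv_mul_cancel₀ (hgne n)]
      · rw [← (hp1 k).1, PF_disj e f h2 _ _ (hdis n k hnk), map_zero, smul_zero]
    rw [e1, norm_zero]
  refine ⟨J, Q, fun x => ?_⟩
  have h7 : ContinuousLinearMap.id ℂ (lp (fun _ : ℕ => ℂ) 1) - Q.comp J = 0 :=
    norm_le_zero_iff.1 hN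
  have h8 := congrArg (fun T : lp (fun _ : ℕ => ℂ) 1 →L[ℂ] lp (fun _ : ℕ => ℂ) 1 => T x)
    (sub_eq_zero.1 h7)
  exact h8.symm

end

end Pool.Agent.Y277.UB
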